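import Mathlib

namespace Pool.Agent.Results.MP_28a32f_nt.UnboundedLeastK

open Filter Nat

theorem pi_succ (n : ℕ) : primeCounting (n + 1) =
    primeCounting n + if (n + 1).Prime then 1 else 0 := by
  unfold primeCounting primeCounting'
  rw [Nat.count_succ]

theorem pi_add_le (m t : ℕ) : primeCounting (m + t) ≤ primeCounting m + t := by
  induction t with
  | zero => simp
  | succ t ih =>
    rw [← add_assoc, pi_succ]
    split_ifs <;> omega

/-- no primes among `x P + j`, `2 ≤ j ≤ M`, where `P` is the primorial of `M` -/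
theorem not_prime_block {M x j : ℕ} (hx : 1 ≤ x) (hj : 2 ≤ j) (hjM : j ≤ M) :
    ¬ (x * primorial M + j).Prime := by
  intro hp
  obtain ⟨q, hq, hqj⟩ := Nat.exists_prime_and_dvd (show j ≠ 1 by omega)
  have hqle : q ≤ j := Nat.le_of_dvd (by omega) hqj
  have hqP : q ∣ primorial M := by
    unfold primorial
    apply Finset.dvd_prod_of_mem
    rw [Finset.mem_filter, Finset.mem_range]
    exact ⟨by omega, hq⟩
  have hdvd : q ∣ x * primorial M + j := (hqP.mul_left x).add hqj
  have hPq : q ≤ primorial M := Nat.le_of_dvd (primorial_pos M) hqP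
  have h1 : primorial M ≤ x * primorial M := Nat.le_mul_of_pos_left _ hx
  rcases (Nat.dvd_prime hp).1 hdvd with h | h
  · exact hq.one_lt.ne' h
  · omega

theorem pi_block {M x : ℕ} (hx : 1 ≤ x) (t : ℕ) (ht : t + 1 ≤ M) :
    primeCounting (x * primorial M + 1 + t) = primeCounting (x * primorial M + 1) := by
  induction t with
  | zero => rfl
  | succ t ih =>
    rw [← add_assoc, pi_succ, if_neg, add_zero, ih (by omega)]
    have := not_prime_block (M := M) (x := x) (j := t + 2) hx (by omega) (by omega)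
    rwa [show x * primorial M + 1 + t + 1 = x * primorial M + (t + 2) by omega]

/-- a monotone function with steps at most `P` takes many values -/
theorem many_values (f : ℕ → ℕ) (P : ℕ) (hmono : ∀ x, f x ≤ f (x + 1))
    (hstep : ∀ x, f (x + 1) ≤ f x + P) (X : ℕ) :
    (∀ y ∈ (Finset.range (X + 1)).image (fun i => f (i + 1)), y ≤ f (X + 1)) ∧
    f (X + 1) ≤ f 1 + P * ((Finset.range (X + 1)).image (fun i => f (i + 1))).card := by
  induction X with
  | zero =>
    refine ⟨?_, by simp⟩
    intro y hy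
    obtain ⟨i, hi, rfl⟩ := Finset.mem_image.1 hy
    have hi0 : i = 0 := by
      have := Finset.mem_range.1 hi
      omega
    subst hi0
    exact le_refl _
  | succ X ih =>
    obtain ⟨ih1, ih2⟩ := ih
    have e : (Finset.range (X + 1 + 1)).image (fun i => f (i + 1)) =
        insert (f (X + 1 + 1)) ((Finset.range (X + 1)).image (fun i => f (i + 1))) := by
      rw [Finset.range_add_one, Finset.image_insert]
    have hm := hmono (X + 1)
    have hs := hstep (X + 1)
    refine ⟨?_, ?_⟩
    · intro y hy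
      rw [e, Finset.mem_insert] at hy
      rcases hy with rfl | hy
      · exact le_refl _
      · exact (ih1 y hy).trans hm
    · rw [e]
      by_cases hmem : f (X + 1 + 1) ∈ (Finset.range (X + 1)).image (fun i => f (i + 1))
      · rw [Finset.insert_eq_of_mem hmem]
        exact (ih1 _ hmem).trans ih2
      · rw [Finset.card_insert_of_notMem hmem, Nat.mul_add, mul_one]
        omega

/-- if `Y = π (X P + 1)` is large compared with `P`, some `π (x P + 1)`, `1 ≤ x ≤ X`, is not prime -/
theorem exists_not_prime {P X : ℕ}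
    (h : primeCounting (1 * P + 1) + P * primeCounting (primeCounting ((X + 1) * P + 1)) <
      primeCounting ((X + 1) * P + 1)) :
    ∃ x, 1 ≤ x ∧ x ≤ X + 1 ∧ ¬ (primeCounting (x * P + 1)).Prime := by
  by_contra hcon
  push Not at hcon
  obtain ⟨h1, h2⟩ := many_values (fun x => primeCounting (x * P + 1)) P
    (fun x => Nat.monotone_primeCounting (by nlinarith))
    (fun x => by
      have := pi_add_le (x * P + 1) P
      have e : (x + 1) * P + 1 = x * P + 1 + P := by ring
      show primeCounting ((x + 1) * P + 1) ≤ primeCounting (x * P + 1) + P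
      rw [e]; exact this) X
  have hsub : (Finset.range (X + 1)).image (fun i => primeCounting ((i + 1) * P + 1)) ⊆
      (Finset.range (primeCounting ((X + 1) * P + 1) + 1)).filter Nat.Prime := by
    intro y hy
    rw [Finset.mem_filter, Finset.mem_range]
    refine ⟨by have := h1 y hy; exact Nat.lt_succ_of_le this, ?_⟩
    obtain ⟨i, hi, rfl⟩ := Finset.mem_image.1 hy
    exact hcon (i + 1) (by omega) (by have := Finset.mem_range.1 hi; omega)
  have hcard := Finset.card_le_card hsub
  have hpi : ∀ Y : ℕ, ((Finset.range (Y + 1)).filter Nat.Prime).card = primeCounting Y := by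
    intro Y
    unfold primeCounting primeCounting'
    rw [Nat.count_eq_card_filter_range]
  rw [hpi] at hcard
  have h3 : primeCounting ((X + 1) * P + 1) ≤ primeCounting (1 * P + 1) +
      P * primeCounting (primeCounting ((X + 1) * P + 1)) :=
    h2.trans (Nat.add_le_add_left (Nat.mul_le_mul_left _ hcard) _)
  omega

/-- `π n ≥ √n` for large `n` -/
theorem sqrt_le_pi : ∀ᶠ n : ℕ in atTop, Real.sqrt n ≤ (primeCounting n : ℝ) := by
  filter_upwards [eventually_ge_atTop (10 ^ 6)] with n hn
  have hn' : (10 ^ 6 : ℝ) ≤ n := by exact_mod_cast hn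
  have hlog : 0 < Real.log n := Real.log_pos (by linarith)
  refine le_trans ?_ (Chebyshev.pi_ge n)
  rw [le_div_iff₀ hlog]
  obtain ⟨s, hs⟩ : ∃ s, s = Real.sqrt (Real.sqrt n) := ⟨_, rfl⟩
  have hs0 : 0 ≤ s := hs ▸ Real.sqrt_nonneg _
  have hs2 : s ^ 2 = Real.sqrt n := by rw [hs]; exact Real.sq_sqrt (Real.sqrt_nonneg _)
  have hs4 : s ^ 4 = n := by
    have : s ^ 4 = (s ^ 2) ^ 2 := by ring
    rw [this, hs2]
    exact Real.sq_sqrt (by linarith)
  have hs10 : 10 ≤ s := by
    by_contra hcon
    push Not at hcon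
    have h1 : s ^ 2 < 10 ^ 2 := pow_lt_pow_left₀ hcon hs0 (by norm_num)
    have h2 : (s ^ 2) ^ 2 < (10 ^ 2) ^ 2 := pow_lt_pow_left₀ h1 (by positivity) (by norm_num)
    have h3 : (s ^ 2) ^ 2 = s ^ 4 := by ring
    rw [h3, hs4] at h2
    linarith
  have hspos : 0 < s := by linarith
  have hl1 : Real.log n ≤ 4 * s := by
    rw [← hs4, Real.log_pow]
    have := Real.log_le_self hs0
    push_cast
    linarith
  have hl2 : Real.log ((n : ℝ) + 1) ≤ 1 + 4 * s := by
    have h1 : Real.log ((n : ℝ) + 1) ≤ Real.log (2 * n) :=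
      Real.log_le_log (by positivity) (by linarith)
    have h2 : Real.log (2 * n) = Real.log 2 + Real.log n :=
      Real.log_mul (by norm_num) (by positivity)
    have h3 := Real.log_two_lt_d9
    linarith
  have hln2 := Real.log_two_gt_d9
  have h1 : Real.sqrt n * Real.log n ≤ s ^ 2 * (4 * s) := by
    rw [← hs2]
    exact mul_le_mul_of_nonneg_left hl1 (by positivity)
  have h2 : s ^ 2 * (4 * s) + (1 + 4 * s) ≤ s ^ 4 * (69 / 100) := by
    have e1 : s ^ 2 * (4 * s) = 4 * s ^ 3 := by ring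
    have e2 : s ^ 4 = s * s ^ 3 := by ring
    have h3 : 0 < s ^ 3 := by positivity
    have h4 : s * 100 ≤ s ^ 3 := by
      have : s ^ 3 = s * (s * s) := by ring
      rw [this]
      exact mul_le_mul_of_nonneg_left (by nlinarith) hs0
    rw [e1, e2]
    nlinarith [mul_le_mul_of_nonneg_right hs10 h3.le]
  have h3 : s ^ 4 * (69 / 100) ≤ n * Real.log 2 := by
    rw [hs4]
    exact mul_le_mul_of_nonneg_left (by linarith) (by positivity)
  linarith

/-- one good `n` -/
theorem exists_good (B : ℕ) : ∃ n, B < n ∧ ¬ (primeCounting n).Prime ∧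
    ∀ a k : ℕ, (k : ℝ) ^ a ≤ (1 / 2) * Real.log (Real.log n) →
      primeCounting (n + k ^ a) = primeCounting n := by
  obtain ⟨N1, hN1⟩ := eventually_atTop.1 sqrt_le_pi
  obtain ⟨x0, hx0⟩ := eventually_atTop.1
    (Chebyshev.eventually_primeCounting_le (ε := 1 / 2) (by norm_num))
  obtain ⟨q, hq1, hq⟩ := Nat.exists_infinite_primes (B + N1 + ⌈x0⌉₊ + 8)
  obtain ⟨P, hP⟩ : ∃ P, P = primorial q := ⟨_, rfl⟩
  have hP0 : 0 < P := hP ▸ primorial_pos q
  have hqP : q ≤ P := by
    apply Nat.le_of_dvd hP0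
    rw [hP]
    unfold primorial
    apply Finset.dvd_prod_of_mem
    rw [Finset.mem_filter, Finset.mem_range]
    exact ⟨by omega, hq⟩
  have hP4 : P ≤ 4 ^ q := hP ▸ primorial_le_four_pow q
  obtain ⟨X, hX⟩ : ∃ X, X + 1 = 2 ^ (13 * P) :=
    ⟨2 ^ (13 * P) - 1, by have := Nat.one_le_two_pow (n := 13 * P); omega⟩
  obtain ⟨Y, hY⟩ : ∃ Y, Y = primeCounting ((X + 1) * P + 1) := ⟨_, rfl⟩
  have hNbig : 2 ^ (12 * P) ≤ (X + 1) * P + 1 := by
    rw [hX]
    have h1 : 2 ^ (12 * P) ≤ 2 ^ (13 * P) := Nat.pow_le_pow_right (by norm_num) (by omega)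
    have h2 : 2 ^ (13 * P) ≤ 2 ^ (13 * P) * P := Nat.le_mul_of_pos_right _ hP0
    omega
  have hPpow : P + 1 ≤ 2 ^ P := Nat.lt_two_pow_self
  have hNN1 : N1 ≤ (X + 1) * P + 1 := by
    have h1 : 2 ^ P ≤ 2 ^ (12 * P) := Nat.pow_le_pow_right (by norm_num) (by omega)
    omega
  have hsq := hN1 _ hNN1
  have hYbig : 2 ^ (6 * P) ≤ Y := by
    have h1 : (((X + 1) * P + 1 : ℕ) : ℝ) ≤ (Y : ℝ) ^ 2 := by
      rw [hY]
      exact (Real.sqrt_le_left (by positivity)).1 hsq
    have h2 : (X + 1) * P + 1 ≤ Y ^ 2 := by exact_mod_cast h1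
    have h3 : (2 ^ (6 * P)) ^ 2 ≤ Y ^ 2 := by
      rw [← pow_mul, show 6 * P * 2 = 12 * P by ring]
      exact hNbig.trans h2
    exact (Nat.pow_le_pow_iff_left (by norm_num)).1 h3
  have hPY : 4 * (P + 1) ≤ Y := by
    have h1 : 2 ^ P * 4 ≤ 2 ^ (6 * P) := by
      have : 2 ^ P * 4 = 2 ^ (P + 2) := by rw [pow_add]; norm_num
      rw [this]
      exact Nat.pow_le_pow_right (by norm_num) (by omega)
    omega
  have hYpos : (0 : ℝ) < Y := by
    have : 0 < Y := by omega
    exact_mod_cast this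
  have hPR : (0 : ℝ) < P := by exact_mod_cast hP0
  have hlogY : 4 * (P : ℝ) ≤ Real.log Y := by
    have h1 : ((2 : ℝ) ^ (6 * P)) ≤ Y := by exact_mod_cast hYbig
    have h2 := Real.log_le_log (by positivity) h1
    rw [Real.log_pow] at h2
    push_cast at h2
    have h3 := Real.log_two_gt_d9
    nlinarith
  have hpiY : (P : ℝ) * (primeCounting Y : ℝ) ≤ Y / 2 := by
    have h1 := hx0 (Y : ℝ) (by
      have : ⌈x0⌉₊ ≤ Y := by omega
      exact (Nat.le_ceil x0).trans (by exact_mod_cast this))
    rw [Nat.floor_natCast] at h1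
    have h4 : Real.log 4 + 1 / 2 ≤ 2 := by
      have : Real.log 4 = 2 * Real.log 2 := by
        rw [show (4 : ℝ) = 2 ^ 2 by norm_num, Real.log_pow]; norm_num
      have h3 := Real.log_two_lt_d9
      rw [this]; linarith
    have h5 : (0 : ℝ) < Real.log Y := by linarith
    have h6 : (Real.log 4 + 1 / 2) * Y / Real.log Y ≤ 2 * Y / (4 * P) := by
      apply div_le_div₀ (by positivity) _ (by positivity) hlogY
      exact mul_le_mul_of_nonneg_right h4 hYpos.le
    have h7 : (P : ℝ) * (2 * Y / (4 * P)) = Y / 2 := by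
      field_simp
      ring
    calc (P : ℝ) * (primeCounting Y : ℝ) ≤ P * (2 * Y / (4 * P)) :=
          mul_le_mul_of_nonneg_left (h1.trans h6) hPR.le
      _ = Y / 2 := h7
  have hlt : primeCounting (1 * P + 1) + P * primeCounting (primeCounting ((X + 1) * P + 1)) <
      primeCounting ((X + 1) * P + 1) := by
    rw [← hY]
    have h1 : primeCounting (1 * P + 1) ≤ P + 1 := by
      have h2 := pi_add_le 0 (P + 1)
      have h3 : primeCounting 0 = 0 := by decide
      rw [h3, zero_add] at h2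
      rw [one_mul]; exact h2
    have h2 : ((P * primeCounting Y : ℕ) : ℝ) ≤ Y / 2 := by push_cast; exact hpiY
    have h3 : 2 * (P * primeCounting Y) ≤ Y := by
      have : (2 : ℝ) * ((P * primeCounting Y : ℕ) : ℝ) ≤ Y := by linarith
      exact_mod_cast this
    omega
  obtain ⟨x, hx1, hxX, hxp⟩ := exists_not_prime hlt
  refine ⟨x * P + 1, ?_, hxp, ?_⟩
  · have : P ≤ x * P := Nat.le_mul_of_pos_left _ hx1
    omega
  · intro a k hka
    have hn14 : x * P + 1 ≤ 2 ^ (14 * P) := by
      have h1 : x * P ≤ 2 ^ (13 * P) * P := Nat.mul_le_mul_right _ (hX ▸ hxX)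
      have h2 : 2 ^ (13 * P) * P + 1 ≤ 2 ^ (13 * P) * (P + 1) := by
        have := Nat.one_le_two_pow (n := 13 * P)
        rw [Nat.mul_add, mul_one]
        omega
      have h3 : 2 ^ (13 * P) * (P + 1) ≤ 2 ^ (13 * P) * 2 ^ P := Nat.mul_le_mul_left _ hPpow
      have h4 : 2 ^ (13 * P) * 2 ^ P = 2 ^ (14 * P) := by rw [← pow_add]; congr 1; ring
      omega
    have hnpos : 2 ≤ x * P + 1 := by
      have : 0 < x * P := Nat.mul_pos hx1 hP0
      omega
    have hlogn : Real.log ((x * P + 1 : ℕ) : ℝ) ≤ 10 * P := by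
      have h1 : (((x * P + 1 : ℕ)) : ℝ) ≤ (2 : ℝ) ^ (14 * P) := by exact_mod_cast hn14
      have h0 : (0 : ℝ) < ((x * P + 1 : ℕ) : ℝ) := by positivity
      have h2 := Real.log_le_log h0 h1
      rw [Real.log_pow] at h2
      push_cast at h2 ⊢
      have h3 := Real.log_two_lt_d9
      nlinarith
    have hlogpos : 0 < Real.log ((x * P + 1 : ℕ) : ℝ) := by
      apply Real.log_pos
      exact_mod_cast (by omega : 1 < x * P + 1)
    have hll : Real.log (Real.log ((x * P + 1 : ℕ) : ℝ)) ≤ 4 * Real.log 2 + 2 * q * Real.log 2 := by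
      have h1 := Real.log_le_log hlogpos hlogn
      have h2 : (10 : ℝ) * P ≤ 2 ^ 4 * (2 ^ 2) ^ q := by
        have h3 : (P : ℝ) ≤ 4 ^ q := by exact_mod_cast hP4
        have h4 : ((2 : ℝ) ^ 2) ^ q = 4 ^ q := by norm_num
        rw [h4]
        have h5 : (0 : ℝ) < 4 ^ q := by positivity
        nlinarith
      have h3 := Real.log_le_log (by positivity) h2
      have h4 : Real.log ((2 : ℝ) ^ 4 * (2 ^ 2) ^ q) =
          4 * Real.log 2 + 2 * q * Real.log 2 := by
        rw [Real.log_mul (by positivity) (by positivity), Real.log_pow, Real.log_pow,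
          Real.log_pow]
        push_cast
        ring
      linarith
    have hq8 : (8 : ℝ) ≤ q := by exact_mod_cast (by omega : 8 ≤ q)
    have hkq : ((k ^ a : ℕ) : ℝ) ≤ q - 1 := by
      push_cast
      have h3 := Real.log_two_lt_d9
      nlinarith
    have hkq' : k ^ a + 1 ≤ q := by
      have : ((k ^ a + 1 : ℕ) : ℝ) ≤ q := by push_cast at hkq ⊢; linarith
      exact_mod_cast this
    rw [hP]
    exact pi_block hx1 (k ^ a) hkq'

/-- There are infinitely many `n` such that `π n` is not prime and, for all exponents `a` and all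
`k` with `k ^ a ≤ (1 / 2) log log n`, `π (n + k ^ a) = π n`. -/
theorem result :
    {n : ℕ | ¬ (primeCounting n).Prime ∧
      ∀ a k : ℕ, (k : ℝ) ^ a ≤ (1 / 2) * Real.log (Real.log n) →
        primeCounting (n + k ^ a) = primeCounting n}.Infinite := by
  rw [Set.infinite_iff_exists_gt]
  intro B
  obtain ⟨n, hn, h, h'⟩ := exists_good B
  exact ⟨n, ⟨h, h'⟩, hn⟩

end Pool.Agent.Results.MP_28a32f_nt.UnboundedLeastK
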